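import Mathlib

/-!
# The semiring `S₇⁰` is nonfinitely based

Signature `{+, ·, 0}`. The identities
`x₀x₁ + x₁x₂ + ⋯ + x_{n-1}x₀ ≈ x₀x₁ + x₁x₂ + ⋯ + x_{n-1}x₀ + x₀x₁⋯x_{n-1}` with `n` odd hold in
`S₇⁰` and do not follow from any finite set of identities of `S₇⁰`.
-/

set_option autoImplicit false

namespace Pool.Agent.Results.MP_5fe13e_al.NonFinitelyBased

/-- Terms in the signature `{+, ·, 0}` over the variables `x 0, x 1, …`. -/
inductive Tm : Type
  | x : ℕ → Tm
  | zero : Tm
  | add : Tm → Tm → Tm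
  | mul : Tm → Tm → Tm

/-- Algebras of the signature `{+, ·, 0}` on the set `A`. -/
structure Alg (A : Type) : Type where
  /-- addition -/
  add : A → A → A
  /-- multiplication -/
  mul : A → A → A
  /-- the constant -/
  zero : A

/-- Value of a term under an assignment of the variables. -/
def Tm.eval {A : Type} (S : Alg A) (v : ℕ → A) : Tm → A
  | .x i => v i
  | .zero => S.zero
  | .add s t => S.add (Tm.eval S v s) (Tm.eval S v t)
  | .mul s t => S.mul (Tm.eval S v s) (Tm.eval S v t)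

/-- Substitution of terms for the variables. -/
def Tm.subst (f : ℕ → Tm) : Tm → Tm
  | .x i => f i
  | .zero => .zero
  | .add s t => .add (Tm.subst f s) (Tm.subst f t)
  | .mul s t => .mul (Tm.subst f s) (Tm.subst f t)

/-- The identity `e.1 ≈ e.2` holds in the algebra `S`. -/
def Holds {A : Type} (S : Alg A) (e : Tm × Tm) : Prop :=
  ∀ v : ℕ → A, e.1.eval S v = e.2.eval S v

/-- Equational logic: `Derivable D s t` says that the identity `s ≈ t` is derivable from the set of
identities `D` (instances of the members of `D`, reflexivity, symmetry, transitivity, and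
compatibility with the operations). -/
inductive Derivable (D : Set (Tm × Tm)) : Tm → Tm → Prop
  | ax (s t : Tm) (f : ℕ → Tm) : (s, t) ∈ D → Derivable D (s.subst f) (t.subst f)
  | refl (s : Tm) : Derivable D s s
  | symm (s t : Tm) : Derivable D s t → Derivable D t s
  | trans (s t u : Tm) : Derivable D s t → Derivable D t u → Derivable D s u
  | add (s s' t t' : Tm) : Derivable D s s' → Derivable D t t' → Derivable D (.add s t) (.add s' t')
  | mul (s s' t t' : Tm) : Derivable D s s' → Derivable D t t' → Derivable D (.mul s t) (.mul s' t')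

/-- `S` is finitely based: some finite set of identities of `S` implies, by equational logic, all
identities of `S`. -/
def FinitelyBased {A : Type} (S : Alg A) : Prop :=
  ∃ D : Set (Tm × Tm), D.Finite ∧ (∀ e ∈ D, Holds S e) ∧ ∀ e, Holds S e → Derivable D e.1 e.2

/-- The elements of `S₇⁰`; `top` is the element `∞`. -/
inductive S70 : Type
  | zero | one | a | top
  deriving DecidableEq, Fintype

namespace S70

/-- Addition of `S₇⁰`: `0` is neutral, `x + x = x`, and `x + y = ∞` for distinct nonzero `x, y`. -/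
def add (u v : S70) : S70 :=
  if u = zero then v else if v = zero then u else if u = v then u else top

/-- Multiplication of `S₇⁰`: `0` is a zero, `1` is neutral, `a a = ∞`, and `∞ x = ∞` for
`x ≠ 0`. -/
def mul (u v : S70) : S70 :=
  if u = zero then zero else if v = zero then zero else
  if u = one then v else if v = one then u else top

/-- The semiring `S₇⁰` in the signature `{+, ·, 0}`. -/
def alg : Alg S70 where
  add := add
  mul := mul
  zero := zero

/-- auxiliary: `1 ≤ u` -/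
def P1 (u : S70) : Prop := u = one ∨ u = top
/-- auxiliary: `a ≤ u` -/
def PA (u : S70) : Prop := u = a ∨ u = top

instance (u : S70) : Decidable (P1 u) := by unfold P1; infer_instance
instance (u : S70) : Decidable (PA u) := by unfold PA; infer_instance

theorem P1_add : ∀ u v : S70, P1 (add u v) ↔ P1 u ∨ P1 v := by decide
theorem PA_add : ∀ u v : S70, PA (add u v) ↔ PA u ∨ PA v := by decide
theorem P1_mul : ∀ u v : S70, P1 (mul u v) ↔ (P1 u ∧ P1 v) ∨ (PA u ∧ PA v) := by decide
theorem PA_mul : ∀ u v : S70, PA (mul u v) ↔ (PA u ∧ (P1 v ∨ PA v)) ∨ ((P1 u ∨ PA u) ∧ PA v) := by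
  decide
theorem ext' : ∀ u v : S70, (P1 u ↔ P1 v) → (PA u ↔ PA v) → u = v := by decide
theorem not_zero : ∀ u : S70, u ≠ zero ↔ (P1 u ∨ PA u) := by decide

end S70

/-! ### Sets of multisets -/

/-- sets of multisets with union and elementwise sum -/
def SetAlg : Alg (Set (Multiset ℕ)) where
  add := fun S T => S ∪ T
  mul := fun S T => Set.image2 (· + ·) S T
  zero := ∅

open Classical in
/-- number of elements of `m` which lie in `B` -/
noncomputable def cnt (B : Set ℕ) (m : Multiset ℕ) : ℕ := m.countP (· ∈ B)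

theorem cnt_add (B : Set ℕ) (m m' : Multiset ℕ) : cnt B (m + m') = cnt B m + cnt B m' := by
  classical
  unfold cnt
  exact Multiset.countP_add _ _ _

/-- `m` avoids `Z` -/
def Av (Z : Set ℕ) (m : Multiset ℕ) : Prop := ∀ y ∈ m, y ∉ Z

theorem Av_add (Z : Set ℕ) (m m' : Multiset ℕ) : Av Z (m + m') ↔ Av Z m ∧ Av Z m' := by
  unfold Av
  constructor
  · intro h
    exact ⟨fun y hy => h y (Multiset.mem_add.2 (Or.inl hy)),
      fun y hy => h y (Multiset.mem_add.2 (Or.inr hy))⟩
  · rintro ⟨h, h'⟩ y hy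
    rcases Multiset.mem_add.1 hy with hy | hy
    · exact h y hy
    · exact h' y hy

/-- some member avoiding `Z` does not meet `B` exactly once -/
def H1 (B Z : Set ℕ) (S : Set (Multiset ℕ)) : Prop := ∃ m ∈ S, Av Z m ∧ cnt B m ≠ 1
/-- some member avoiding `Z` meets `B` -/
def HA (B Z : Set ℕ) (S : Set (Multiset ℕ)) : Prop := ∃ m ∈ S, Av Z m ∧ 1 ≤ cnt B m

open Classical in
/-- the value in `S₇⁰` of a set of monomials: variables in `Z` are `0`, in `B` are `a`, all other
ones are `1` -/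
noncomputable def Val (B Z : Set ℕ) (S : Set (Multiset ℕ)) : S70 :=
  if H1 B Z S then (if HA B Z S then .top else .one) else (if HA B Z S then .a else .zero)

theorem P1_Val (B Z : Set ℕ) (S : Set (Multiset ℕ)) : (Val B Z S).P1 ↔ H1 B Z S := by
  unfold Val S70.P1
  by_cases h1 : H1 B Z S <;> by_cases h2 : HA B Z S <;> simp [h1, h2]

theorem PA_Val (B Z : Set ℕ) (S : Set (Multiset ℕ)) : (Val B Z S).PA ↔ HA B Z S := by
  unfold Val S70.PA
  by_cases h1 : H1 B Z S <;> by_cases h2 : HA B Z S <;> simp [h1, h2]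

theorem Val_union (B Z : Set ℕ) (S T : Set (Multiset ℕ)) :
    Val B Z (S ∪ T) = S70.add (Val B Z S) (Val B Z T) := by
  apply S70.ext'
  · rw [S70.P1_add, P1_Val, P1_Val, P1_Val]
    unfold H1
    constructor
    · rintro ⟨m, hm | hm, h⟩
      · exact Or.inl ⟨m, hm, h⟩
      · exact Or.inr ⟨m, hm, h⟩
    · rintro (⟨m, hm, h⟩ | ⟨m, hm, h⟩)
      · exact ⟨m, Or.inl hm, h⟩
      · exact ⟨m, Or.inr hm, h⟩
  · rw [S70.PA_add, PA_Val, PA_Val, PA_Val]
    unfold HA
    constructor
    · rintro ⟨m, hm | hm, h⟩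
      · exact Or.inl ⟨m, hm, h⟩
      · exact Or.inr ⟨m, hm, h⟩
    · rintro (⟨m, hm, h⟩ | ⟨m, hm, h⟩)
      · exact ⟨m, Or.inl hm, h⟩
      · exact ⟨m, Or.inr hm, h⟩

theorem H1_or_HA (B Z : Set ℕ) (S : Set (Multiset ℕ)) :
    (H1 B Z S ∨ HA B Z S) ↔ ∃ m ∈ S, Av Z m := by
  unfold H1 HA
  constructor
  · rintro (⟨m, hm, h, _⟩ | ⟨m, hm, h, _⟩) <;> exact ⟨m, hm, h⟩
  · rintro ⟨m, hm, h⟩
    by_cases hc : cnt B m = 1
    · exact Or.inr ⟨m, hm, h, hc.ge⟩
    · exact Or.inl ⟨m, hm, h, hc⟩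

theorem Val_mul (B Z : Set ℕ) (S T : Set (Multiset ℕ)) :
    Val B Z (Set.image2 (· + ·) S T) = S70.mul (Val B Z S) (Val B Z T) := by
  apply S70.ext'
  · rw [S70.P1_mul, P1_Val, P1_Val, P1_Val, PA_Val, PA_Val]
    constructor
    · rintro ⟨_, ⟨m, hm, m', hm', rfl⟩, h, hc⟩
      have h' := (Av_add Z m m').1 h
      have hc' : cnt B m + cnt B m' ≠ 1 := by rw [← cnt_add]; exact hc
      by_cases h1 : 1 ≤ cnt B m ∧ 1 ≤ cnt B m'
      · exact Or.inr ⟨⟨m, hm, h'.1, h1.1⟩, ⟨m', hm', h'.2, h1.2⟩⟩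
      · exact Or.inl ⟨⟨m, hm, h'.1, by omega⟩, ⟨m', hm', h'.2, by omega⟩⟩
    · rintro (⟨⟨m, hm, h, hc⟩, ⟨m', hm', h', hc'⟩⟩ | ⟨⟨m, hm, h, hc⟩, ⟨m', hm', h', hc'⟩⟩)
      · refine ⟨m + m', ⟨m, hm, m', hm', rfl⟩, (Av_add Z m m').2 ⟨h, h'⟩, ?_⟩
        rw [cnt_add]; omega
      · refine ⟨m + m', ⟨m, hm, m', hm', rfl⟩, (Av_add Z m m').2 ⟨h, h'⟩, ?_⟩
        rw [cnt_add]; omega
  · rw [S70.PA_mul, P1_Val, P1_Val, PA_Val, PA_Val, PA_Val, H1_or_HA, H1_or_HA]
    constructor
    · rintro ⟨_, ⟨m, hm, m', hm', rfl⟩, h, hc⟩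
      have h' := (Av_add Z m m').1 h
      have hc' : 1 ≤ cnt B m + cnt B m' := by rw [← cnt_add]; exact hc
      by_cases h1 : 1 ≤ cnt B m
      · exact Or.inl ⟨⟨m, hm, h'.1, h1⟩, ⟨m', hm', h'.2⟩⟩
      · exact Or.inr ⟨⟨m, hm, h'.1⟩, ⟨m', hm', h'.2, by omega⟩⟩
    · rintro (⟨⟨m, hm, h, hc⟩, ⟨m', hm', h'⟩⟩ | ⟨⟨m, hm, h⟩, ⟨m', hm', h', hc'⟩⟩)
      · refine ⟨m + m', ⟨m, hm, m', hm', rfl⟩, (Av_add Z m m').2 ⟨h, h'⟩, ?_⟩
        rw [cnt_add]; omega
      · refine ⟨m + m', ⟨m, hm, m', hm', rfl⟩, (Av_add Z m m').2 ⟨h, h'⟩, ?_⟩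
        rw [cnt_add]; omega

theorem Val_empty (B Z : Set ℕ) : Val B Z ∅ = S70.zero := by
  unfold Val H1 HA
  simp

theorem Val_eval (B Z : Set ℕ) (φ : ℕ → Set (Multiset ℕ)) (t : Tm) :
    Val B Z (t.eval SetAlg φ) = t.eval S70.alg (fun i => Val B Z (φ i)) := by
  induction t with
  | x i => rfl
  | zero => exact Val_empty B Z
  | add s t hs ht =>
    show Val B Z (s.eval SetAlg φ ∪ t.eval SetAlg φ) = _
    rw [Val_union, hs, ht]; rfl
  | mul s t hs ht =>
    show Val B Z (Set.image2 (· + ·) (s.eval SetAlg φ) (t.eval SetAlg φ)) = _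
    rw [Val_mul, hs, ht]; rfl

/-! ### Monotonicity, small selections, bounds -/

theorem eval_mono {φ ψ : ℕ → Set (Multiset ℕ)} (h : ∀ i, φ i ⊆ ψ i) (t : Tm) :
    t.eval SetAlg φ ⊆ t.eval SetAlg ψ := by
  induction t with
  | x i => exact h i
  | zero => exact le_refl _
  | add s t hs ht => exact Set.union_subset_union hs ht
  | mul s t hs ht => exact Set.image2_subset hs ht

/-- number of nodes of a term -/
def Tm.size : Tm → ℕ
  | .x _ => 1
  | .zero => 1
  | .add s t => s.size + t.size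
  | .mul s t => s.size + t.size

/-- bound for the number of monomials -/
def Tm.bd (b : ℕ) : Tm → ℕ
  | .x _ => b
  | .zero => 0
  | .add s t => Tm.bd b s + Tm.bd b t
  | .mul s t => Tm.bd b s * Tm.bd b t

theorem select (φ : ℕ → Set (Multiset ℕ)) (t : Tm) : ∀ m ∈ t.eval SetAlg φ,
    ∃ ψ : ℕ → Finset (Multiset ℕ), (∀ i, (ψ i : Set (Multiset ℕ)) ⊆ φ i) ∧
      (∀ i, (ψ i).card ≤ t.size) ∧ m ∈ t.eval SetAlg (fun i => (ψ i : Set (Multiset ℕ))) := by
  classical
  induction t with
  | x i =>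
    intro m hm
    have hm' : m ∈ φ i := hm
    refine ⟨fun j => if j = i then {m} else ∅, fun j => ?_, fun j => ?_, ?_⟩
    · by_cases h : j = i
      · subst h; simpa using hm'
      · simp [h]
    · by_cases h : j = i <;> simp [h, Tm.size]
    · show m ∈ _
      simp [Tm.eval]
  | zero => intro m hm; exact absurd hm (Set.notMem_empty m)
  | add s t hs ht =>
    intro m hm
    rcases (hm : m ∈ s.eval SetAlg φ ∪ t.eval SetAlg φ) with hm | hm
    · obtain ⟨ψ, h1, h2, h3⟩ := hs m hm
      exact ⟨ψ, h1, fun i => (h2 i).trans (by simp [Tm.size]), Or.inl h3⟩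
    · obtain ⟨ψ, h1, h2, h3⟩ := ht m hm
      exact ⟨ψ, h1, fun i => (h2 i).trans (by simp [Tm.size]), Or.inr h3⟩
  | mul s t hs ht =>
    rintro _ ⟨m, hm, m', hm', rfl⟩
    obtain ⟨ψ, h1, h2, h3⟩ := hs m hm
    obtain ⟨ψ', h1', h2', h3'⟩ := ht m' hm'
    refine ⟨fun i => ψ i ∪ ψ' i, fun i => ?_, fun i => ?_, ?_⟩
    · rw [Finset.coe_union]; exact Set.union_subset (h1 i) (h1' i)
    · exact (Finset.card_union_le _ _).trans (Nat.add_le_add (h2 i) (h2' i))
    · refine ⟨m, eval_mono (fun i => ?_) s h3, m', eval_mono (fun i => ?_) t h3', rfl⟩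
      · rw [Finset.coe_union]; exact Set.subset_union_left
      · rw [Finset.coe_union]; exact Set.subset_union_right

theorem bound (ψ : ℕ → Finset (Multiset ℕ)) (b : ℕ) (h : ∀ i, (ψ i).card ≤ b) (t : Tm) :
    ∃ F : Finset (Multiset ℕ),
      (F : Set (Multiset ℕ)) = t.eval SetAlg (fun i => (ψ i : Set (Multiset ℕ))) ∧
        F.card ≤ t.bd b := by
  classical
  induction t with
  | x i => exact ⟨ψ i, rfl, h i⟩
  | zero => exact ⟨∅, by simp [Tm.eval, SetAlg], by simp⟩
  | add s t hs ht =>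
    obtain ⟨F, h1, h2⟩ := hs
    obtain ⟨F', h1', h2'⟩ := ht
    refine ⟨F ∪ F', ?_, (Finset.card_union_le _ _).trans (Nat.add_le_add h2 h2')⟩
    rw [Finset.coe_union, h1, h1']; rfl
  | mul s t hs ht =>
    obtain ⟨F, h1, h2⟩ := hs
    obtain ⟨F', h1', h2'⟩ := ht
    refine ⟨Finset.image₂ (· + ·) F F', ?_,
      (Finset.card_image₂_le _ _ _).trans (Nat.mul_le_mul h2 h2')⟩
    rw [Finset.coe_image₂, h1, h1']; rfl

/-! ### The cycle -/

/-- the `i`-th edge of the cycle of length `n` -/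
def ed (n i : ℕ) : Multiset ℕ := {i, (i + 1) % n}

/-- the edges of the cycle of length `n` -/
def E (n : ℕ) : Set (Multiset ℕ) := {m | ∃ i < n, m = ed n i}

theorem cnt_ed (B : Set ℕ) (n i : ℕ) :
    cnt B (ed n i) = 1 ↔ ¬ (i ∈ B ↔ (i + 1) % n ∈ B) := by
  classical
  unfold cnt ed
  have h : ({i, (i + 1) % n} : Multiset ℕ) = i ::ₘ {(i + 1) % n} := rfl
  rw [h, Multiset.countP_cons, ← Multiset.cons_zero, Multiset.countP_cons, Multiset.countP_zero]
  by_cases h1 : i ∈ B <;> by_cases h2 : (i + 1) % n ∈ B <;> simp [h1, h2]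

theorem cnt_compl (B : Set ℕ) (m : Multiset ℕ) : cnt B m + cnt Bᶜ m = m.card := by
  induction m using Multiset.induction_on with
  | empty => simp [cnt]
  | cons a m ih =>
    rw [← Multiset.singleton_add, cnt_add, cnt_add, Multiset.card_add, ← ih]
    have h : cnt B {a} + cnt Bᶜ {a} = 1 := by
      unfold cnt
      rw [← Multiset.cons_zero, Multiset.countP_cons, Multiset.countP_cons, Multiset.countP_zero]
      by_cases h : a ∈ B <;> simp [h]
    rw [Multiset.card_singleton]
    omega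

/-- A proper set of edges of the cycle has a proper two-colouring. -/
theorem coloring (n : ℕ) (K : Set (Multiset ℕ)) (hK : K ⊆ E n) (hne : K ≠ E n) :
    ∃ B : Set ℕ, ∀ e ∈ K, cnt B e = 1 ∧ cnt Bᶜ e = 1 := by
  obtain ⟨e, he, heK⟩ : ∃ e ∈ E n, e ∉ K := by
    by_contra hcon
    push Not at hcon
    exact hne (Set.Subset.antisymm hK hcon)
  obtain ⟨j, hj, rfl⟩ := he
  refine ⟨{x | ((x + (n - 1 - j)) % n) % 2 = 0}, ?_⟩
  intro e he
  obtain ⟨i, hi, rfl⟩ := hK he
  have hij : i ≠ j := by rintro rfl; exact heK he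
  have key : (((i + 1) % n + (n - 1 - j)) % n) = (i + (n - 1 - j)) % n + 1 := by
    have h1 : (i + (n - 1 - j)) % n ≠ n - 1 := by
      intro h
      have h2 : i + (n - 1 - j) < 2 * n := by omega
      by_cases h3 : i + (n - 1 - j) < n
      · rw [Nat.mod_eq_of_lt h3] at h; omega
      · rw [Nat.mod_eq_sub_mod (by omega), Nat.mod_eq_of_lt (by omega)] at h; omega
    have h4 : (i + (n - 1 - j)) % n < n := Nat.mod_lt _ (by omega)
    have h5 : ((i + 1) % n + (n - 1 - j)) % n = ((i + (n - 1 - j)) % n + 1) % n := by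
      rw [Nat.add_mod, Nat.mod_mod, ← Nat.add_mod, Nat.mod_add_mod]
      congr 1
      omega
    rw [h5, Nat.mod_eq_of_lt (by omega)]
  constructor
  · rw [cnt_ed]
    simp only [Set.mem_ofPred_eq]
    rw [key]
    omega
  · rw [cnt_ed]
    simp only [Set.mem_compl_iff, Set.mem_ofPred_eq]
    rw [key]
    omega

theorem pair_eq {u v : ℕ} (m : Multiset ℕ) (huv : u ≠ v) (hu : u ∈ m) (hv : v ∈ m)
    (hm : m.card = 2) : m = {u, v} := by
  have h1 : ({u, v} : Multiset ℕ) ≤ m := by
    rw [Multiset.le_iff_count]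
    intro w
    have h : ({u, v} : Multiset ℕ) = u ::ₘ {v} := rfl
    rw [h, Multiset.count_cons, Multiset.count_singleton]
    have hu' := Multiset.count_pos.2 hu
    have hv' := Multiset.count_pos.2 hv
    by_cases hwu : w = u
    · subst hwu; simp [huv]; exact hu'
    · by_cases hwv : w = v
      · subst hwv; simp [hwu]; exact hv'
      · simp [hwu, hwv]
  exact (Multiset.eq_of_le_of_card_le h1 (by rw [hm]; simp)).symm

theorem separate (n : ℕ) (K K' : Set (Multiset ℕ)) (hK : K ⊆ E n) (hne : K ≠ E n)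
    (hV : ∀ B Z, Val B Z K = Val B Z K') : K = K' := by
  obtain ⟨B, hB⟩ := coloring n K hK hne
  have hnz : ∀ Z, (∃ m ∈ K, Av Z m) ↔ ∃ m ∈ K', Av Z m := by
    intro Z
    rw [← H1_or_HA ∅ Z K, ← H1_or_HA ∅ Z K', ← P1_Val, ← PA_Val, ← P1_Val, ← PA_Val, hV]
  have hone : ∀ Z B', (∀ e ∈ K, cnt B' e = 1) → ∀ m ∈ K', Av Z m → cnt B' m = 1 := by
    intro Z B' hB' m hm hav
    by_contra hc
    have h1 : H1 B' Z K' := ⟨m, hm, hav, hc⟩
    rw [← P1_Val, ← hV, P1_Val] at h1
    obtain ⟨e, he, _, hc'⟩ := h1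
    exact hc' (hB' e he)
  have hsub : ∀ m ∈ K', m ∈ K := by
    intro m hm
    have hav : Av {y | y ∉ m} m := fun y hy h => h hy
    obtain ⟨e, he, heav⟩ := (hnz {y | y ∉ m}).2 ⟨m, hm, hav⟩
    have h1 := hone _ B (fun e he => (hB e he).1) m hm hav
    have h2 := hone _ Bᶜ (fun e he => (hB e he).2) m hm hav
    have hcard : m.card = 2 := by rw [← cnt_compl B m, h1, h2]
    obtain ⟨i, _, rfl⟩ := hK he
    have hne' : i ≠ (i + 1) % n := by
      intro h
      have := (cnt_ed B n i).1 (hB _ he).1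
      rw [← h] at this
      exact this Iff.rfl
    have hmem : ∀ y ∈ ed n i, y ∈ m := by
      intro y hy
      have := heav y hy
      simpa using this
    rw [pair_eq m hne' (hmem i (by simp [ed])) (hmem _ (by simp [ed])) hcard]
    exact he
  apply Set.Subset.antisymm _ hsub
  intro e he
  have hav : Av {y | y ∉ e} e := fun y hy h => h hy
  obtain ⟨m, hm, hmav⟩ := (hnz {y | y ∉ e}).1 ⟨e, he, hav⟩
  have hmK := hsub m hm
  obtain ⟨k, _, rfl⟩ := hK hmK
  have hne' : k ≠ (k + 1) % n := by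
    intro h
    have := (cnt_ed B n k).1 (hB _ hmK).1
    rw [← h] at this
    exact this Iff.rfl
  have hmem : ∀ y ∈ ed n k, y ∈ e := by
    intro y hy
    have := hmav y hy
    simpa using this
  have hcard : e.card = 2 := by rw [← cnt_compl B e, (hB e he).1, (hB e he).2]
  rw [pair_eq e hne' (hmem k (by simp [ed])) (hmem _ (by simp [ed])) hcard]
  exact hm

theorem small_ne (n : ℕ) (F : Finset (Multiset ℕ)) (hF : F.card + 1 < n) :
    (F : Set (Multiset ℕ)) ≠ E n := by
  classical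
  intro h
  have h1 : (Finset.range (n - 1)).card ≤ F.card := by
    apply Finset.card_le_card_of_injOn (fun i => ed n i)
    · intro i hi
      have hi' : i < n - 1 := by simpa using hi
      have : ed n i ∈ E n := ⟨i, by omega, rfl⟩
      rw [← h] at this
      exact this
    · intro i hi j hj hij
      have hi' : i < n - 1 := by simpa using hi
      have hj' : j < n - 1 := by simpa using hj
      have hs : (ed n i).sum = (ed n j).sum := congrArg Multiset.sum hij
      unfold ed at hs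
      rw [Nat.mod_eq_of_lt (by omega), Nat.mod_eq_of_lt (by omega)] at hs
      simp at hs
      omega
  rw [Finset.card_range] at h1
  omega

/-- One step of a derivation does not change the set `E n`. -/
theorem step (n : ℕ) (σ τ : Tm) (hid : Holds S70.alg (σ, τ)) (h1 : σ.bd τ.size + 1 < n)
    (h2 : σ.bd σ.size + 1 < n) (φ : ℕ → Set (Multiset ℕ)) (q r : Set (Multiset ℕ))
    (h : Set.image2 (· + ·) (σ.eval SetAlg φ) q ∪ r = E n) :
    Set.image2 (· + ·) (τ.eval SetAlg φ) q ∪ r = E n := by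
  classical
  have main : ∀ (ψ : ℕ → Finset (Multiset ℕ)) (b : ℕ) (p : Multiset ℕ), p ∈ q →
      (∀ i, (ψ i : Set (Multiset ℕ)) ⊆ φ i) → (∀ i, (ψ i).card ≤ b) → σ.bd b + 1 < n →
      Set.image2 (· + ·) (σ.eval SetAlg (fun i => (ψ i : Set (Multiset ℕ)))) {p} =
      Set.image2 (· + ·) (τ.eval SetAlg (fun i => (ψ i : Set (Multiset ℕ)))) {p} := by
    intro ψ b p hp hψ hb hbd
    obtain ⟨F, hF, hFc⟩ := bound ψ b hb σ
    apply separate n
    · intro m hm
      rw [← h]
      left
      exact Set.image2_subset (eval_mono hψ σ) (Set.singleton_subset_iff.2 hp) hm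
    · have hF' : ((Finset.image₂ (· + ·) F {p} : Finset (Multiset ℕ)) : Set (Multiset ℕ)) =
          Set.image2 (· + ·) (σ.eval SetAlg (fun i => (ψ i : Set (Multiset ℕ)))) {p} := by
        rw [Finset.coe_image₂, hF, Finset.coe_singleton]
      rw [← hF']
      apply small_ne
      have := Finset.card_image₂_le (· + ·) F ({p} : Finset (Multiset ℕ))
      rw [Finset.card_singleton, mul_one] at this
      omega
    · intro B Z
      rw [Val_mul, Val_mul, Val_eval, Val_eval]
      congr 1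
      exact hid _
  have hEq : Set.image2 (· + ·) (τ.eval SetAlg φ) q = Set.image2 (· + ·) (σ.eval SetAlg φ) q := by
    apply Set.Subset.antisymm
    · rintro _ ⟨m, hm, p, hp, rfl⟩
      obtain ⟨ψ, hψ, hb, hmψ⟩ := select φ τ m hm
      have := main ψ τ.size p hp hψ hb h1
      have hmem : m + p ∈
          Set.image2 (· + ·) (τ.eval SetAlg (fun i => (ψ i : Set (Multiset ℕ)))) {p} :=
        ⟨m, hmψ, p, rfl, rfl⟩
      rw [← this] at hmem
      exact Set.image2_subset (eval_mono hψ σ) (Set.singleton_subset_iff.2 hp) hmem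
    · rintro _ ⟨m, hm, p, hp, rfl⟩
      obtain ⟨ψ, hψ, hb, hmψ⟩ := select φ σ m hm
      have := main ψ σ.size p hp hψ hb h2
      have hmem : m + p ∈
          Set.image2 (· + ·) (σ.eval SetAlg (fun i => (ψ i : Set (Multiset ℕ)))) {p} :=
        ⟨m, hmψ, p, rfl, rfl⟩
      rw [this] at hmem
      exact Set.image2_subset (eval_mono hψ τ) (Set.singleton_subset_iff.2 hp) hmem
  rw [hEq]
  exact h

theorem eval_subst {A : Type} (S : Alg A) (v : ℕ → A) (f : ℕ → Tm) (t : Tm) :
    (t.subst f).eval S v = t.eval S (fun i => (f i).eval S v) := by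
  induction t with
  | x i => rfl
  | zero => rfl
  | add s t hs ht => simp only [Tm.subst, Tm.eval, hs, ht]
  | mul s t hs ht => simp only [Tm.subst, Tm.eval, hs, ht]

theorem invariant (D : Set (Tm × Tm)) (hD : ∀ e ∈ D, Holds S70.alg e) (n : ℕ)
    (hn : ∀ e ∈ D, e.1.bd e.2.size + 1 < n ∧ e.1.bd e.1.size + 1 < n ∧ e.2.bd e.1.size + 1 < n ∧
      e.2.bd e.2.size + 1 < n) (s t : Tm) (hst : Derivable D s t) :
    ∀ (φ : ℕ → Set (Multiset ℕ)) (q r : Set (Multiset ℕ)),
      Set.image2 (· + ·) (s.eval SetAlg φ) q ∪ r = E n ↔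
      Set.image2 (· + ·) (t.eval SetAlg φ) q ∪ r = E n := by
  induction hst with
  | ax s t f h =>
    intro φ q r
    rw [eval_subst, eval_subst]
    have hh := hn _ h
    constructor
    · exact step n s t (hD _ h) hh.1 hh.2.1 _ q r
    · exact step n t s (fun v => (hD _ h v).symm) hh.2.2.1 hh.2.2.2 _ q r
  | refl s => intro φ q r; exact Iff.rfl
  | symm s t _ ih => intro φ q r; exact (ih φ q r).symm
  | trans s t u _ _ ih1 ih2 => intro φ q r; exact (ih1 φ q r).trans (ih2 φ q r)
  | add s s' t t' _ _ ih1 ih2 =>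
    intro φ q r
    have e : ∀ S T : Set (Multiset ℕ), Set.image2 (· + ·) (S ∪ T) q ∪ r =
        Set.image2 (· + ·) S q ∪ (Set.image2 (· + ·) T q ∪ r) := by
      intro S T; rw [Set.image2_union_left, Set.union_assoc]
    have e' : ∀ S T : Set (Multiset ℕ), Set.image2 (· + ·) S q ∪ (Set.image2 (· + ·) T q ∪ r) =
        Set.image2 (· + ·) T q ∪ (Set.image2 (· + ·) S q ∪ r) := by
      intro S T; rw [← Set.union_assoc, ← Set.union_assoc, Set.union_comm (Set.image2 _ S q)]
    show Set.image2 (· + ·) (s.eval SetAlg φ ∪ t.eval SetAlg φ) q ∪ r = E n ↔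
      Set.image2 (· + ·) (s'.eval SetAlg φ ∪ t'.eval SetAlg φ) q ∪ r = E n
    rw [e, e, ih1 φ q _, e', ih2 φ q _, e']
  | mul s s' t t' _ _ ih1 ih2 =>
    intro φ q r
    have e : ∀ S T : Set (Multiset ℕ), Set.image2 (· + ·) (Set.image2 (· + ·) S T) q =
        Set.image2 (· + ·) S (Set.image2 (· + ·) T q) := by
      intro S T
      exact Set.image2_assoc (fun a b c => add_assoc a b c)
    have e' : ∀ S T : Set (Multiset ℕ), Set.image2 (· + ·) (Set.image2 (· + ·) S T) q =
        Set.image2 (· + ·) T (Set.image2 (· + ·) S q) := by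
      intro S T
      rw [Set.image2_comm (s := S) (t := T) (fun a b => add_comm a b)]
      exact Set.image2_assoc (fun a b c => add_assoc a b c)
    show Set.image2 (· + ·) (Set.image2 (· + ·) (s.eval SetAlg φ) (t.eval SetAlg φ)) q ∪ r = E n ↔
      Set.image2 (· + ·) (Set.image2 (· + ·) (s'.eval SetAlg φ) (t'.eval SetAlg φ)) q ∪ r = E n
    rw [e, ih1 φ _ r, ← e, e', ih2 φ _ r, ← e']

/-! ### The identities -/

/-- `x₀x₁ + x₁x₂ + ⋯` (edges `0, …, k - 1` of the cycle of length `n`) -/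
def edges (n : ℕ) : ℕ → Tm
  | 0 => .zero
  | k + 1 => .add (edges n k) (.mul (.x k) (.x ((k + 1) % n)))

/-- `x₀ ⋯ x_k` -/
def prodT : ℕ → Tm
  | 0 => .x 0
  | k + 1 => .mul (prodT k) (.x (k + 1))

theorem P1_edges (n : ℕ) (v : ℕ → S70) (k : ℕ) : ((edges n k).eval S70.alg v).P1 ↔
    ∃ i < k, (S70.mul (v i) (v ((i + 1) % n))).P1 := by
  induction k with
  | zero => simp [edges, Tm.eval, S70.alg, S70.P1]
  | succ k ih =>
    show (S70.add ((edges n k).eval S70.alg v) (S70.mul (v k) (v ((k + 1) % n)))).P1 ↔ _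
    rw [S70.P1_add, ih]
    constructor
    · rintro (⟨i, hi, h⟩ | h)
      · exact ⟨i, by omega, h⟩
      · exact ⟨k, by omega, h⟩
    · rintro ⟨i, hi, h⟩
      by_cases hik : i = k
      · subst hik; exact Or.inr h
      · exact Or.inl ⟨i, by omega, h⟩

theorem PA_edges (n : ℕ) (v : ℕ → S70) (k : ℕ) : ((edges n k).eval S70.alg v).PA ↔
    ∃ i < k, (S70.mul (v i) (v ((i + 1) % n))).PA := by
  induction k with
  | zero => simp [edges, Tm.eval, S70.alg, S70.PA]
  | succ k ih =>
    show (S70.add ((edges n k).eval S70.alg v) (S70.mul (v k) (v ((k + 1) % n)))).PA ↔ _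
    rw [S70.PA_add, ih]
    constructor
    · rintro (⟨i, hi, h⟩ | h)
      · exact ⟨i, by omega, h⟩
      · exact ⟨k, by omega, h⟩
    · rintro ⟨i, hi, h⟩
      by_cases hik : i = k
      · subst hik; exact Or.inr h
      · exact Or.inl ⟨i, by omega, h⟩

theorem mul_ne_zero' : ∀ u v : S70, S70.mul u v ≠ .zero ↔ u ≠ .zero ∧ v ≠ .zero := by decide
theorem PA_mul_imp : ∀ u v : S70, (S70.mul u v).PA → u.PA ∨ v.PA := by decide
theorem PA_mul_of : ∀ u v : S70, u.PA → v ≠ .zero → (S70.mul u v).PA := by decide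
theorem PA_ne : ∀ u : S70, u.PA → u ≠ .zero := by decide
theorem P1_ne : ∀ u : S70, u.P1 → u ≠ .zero := by decide
theorem alt : ∀ u v : S70, u ≠ .zero → v ≠ .zero → ¬ (S70.mul u v).P1 →
    (u = .one ∧ v = .a) ∨ (u = .a ∧ v = .one) := by decide

theorem prodT_ne (v : ℕ → S70) (k : ℕ) (h : (prodT k).eval S70.alg v ≠ .zero) :
    ∀ i ≤ k, v i ≠ .zero := by
  induction k with
  | zero => intro i hi; obtain rfl : i = 0 := by omega
            exact h
  | succ k ih =>
    have h' := (mul_ne_zero' _ _).1 (h : S70.mul ((prodT k).eval S70.alg v) (v (k + 1)) ≠ .zero)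
    intro i hi
    by_cases hik : i = k + 1
    · subst hik; exact h'.2
    · exact ih h'.1 i (by omega)

theorem prodT_PA (v : ℕ → S70) (k : ℕ) (h : ((prodT k).eval S70.alg v).PA) :
    ∃ i ≤ k, (v i).PA := by
  induction k with
  | zero => exact ⟨0, le_refl _, h⟩
  | succ k ih =>
    rcases PA_mul_imp _ _ (h : (S70.mul ((prodT k).eval S70.alg v) (v (k + 1))).PA) with h' | h'
    · obtain ⟨i, hi, h⟩ := ih h'
      exact ⟨i, by omega, h⟩
    · exact ⟨k + 1, le_refl _, h'⟩

theorem identity_holds (k : ℕ) : Holds S70.alg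
    (edges (2 * k + 1) (2 * k + 1), .add (edges (2 * k + 1) (2 * k + 1)) (prodT (2 * k))) := by
  intro v
  show (edges (2 * k + 1) (2 * k + 1)).eval S70.alg v =
    S70.add ((edges (2 * k + 1) (2 * k + 1)).eval S70.alg v) ((prodT (2 * k)).eval S70.alg v)
  have hmod : ∀ i, (i + 1) % (2 * k + 1) ≤ 2 * k := fun i => by
    have := Nat.mod_lt (i + 1) (show 0 < 2 * k + 1 by omega)
    omega
  apply S70.ext'
  · rw [S70.P1_add]
    constructor
    · exact Or.inl
    · rintro (h | h)
      · exact h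
      · have hne := prodT_ne v (2 * k) (P1_ne _ h)
        rw [P1_edges]
        by_contra hcon
        push Not at hcon
        have halt : ∀ i < 2 * k + 1, (v i = .one ∧ v ((i + 1) % (2 * k + 1)) = .a) ∨
            (v i = .a ∧ v ((i + 1) % (2 * k + 1)) = .one) := fun i hi =>
          alt _ _ (hne i (by omega)) (hne _ (hmod i)) (hcon i hi)
        have hpar : ∀ i ≤ 2 * k, (v i = v 0 ↔ i % 2 = 0) := by
          intro i
          induction i with
          | zero => intro _; simp
          | succ i ih =>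
            intro hi
            have h1 := halt i (by omega)
            rw [Nat.mod_eq_of_lt (by omega)] at h1
            have h2 := ih (by omega)
            have h0 := halt 0 (by omega)
            have h3 : v (i + 1) = v 0 ↔ ¬ v i = v 0 := by
              rcases h1 with ⟨h1, h1'⟩ | ⟨h1, h1'⟩ <;> rcases h0 with ⟨h0, _⟩ | ⟨h0, _⟩ <;>
                rw [h1, h1', h0] <;> decide
            rw [h3, h2]
            omega
        have hl := halt (2 * k) (by omega)
        rw [Nat.mod_self] at hl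
        have h1 : v (2 * k) = v 0 := (hpar (2 * k) (le_refl _)).2 (by omega)
        rw [h1] at hl
        rcases hl with ⟨ha, hb⟩ | ⟨ha, hb⟩ <;> rw [ha] at hb <;> exact absurd hb (by decide)
  · rw [S70.PA_add]
    constructor
    · exact Or.inl
    · rintro (h | h)
      · exact h
      · obtain ⟨i, hi, hPA⟩ := prodT_PA v (2 * k) h
        have hne := prodT_ne v (2 * k) (PA_ne _ h)
        rw [PA_edges]
        exact ⟨i, by omega, PA_mul_of _ _ hPA (hne _ (hmod i))⟩

theorem eval_edges (n k : ℕ) :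
    (edges n k).eval SetAlg (fun i => {({i} : Multiset ℕ)}) = {m | ∃ i < k, m = ed n i} := by
  induction k with
  | zero => ext m; simp [edges, Tm.eval, SetAlg]
  | succ k ih =>
    show (edges n k).eval SetAlg (fun i => {({i} : Multiset ℕ)}) ∪
      Set.image2 (· + ·) {({k} : Multiset ℕ)} {({(k + 1) % n} : Multiset ℕ)} = _
    rw [ih, Set.image2_singleton]
    ext m
    simp only [Set.mem_union, Set.mem_ofPred_eq, Set.mem_singleton_iff]
    constructor
    · rintro (⟨i, hi, h⟩ | h)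
      · exact ⟨i, by omega, h⟩
      · exact ⟨k, by omega, h⟩
    · rintro ⟨i, hi, h⟩
      by_cases hik : i = k
      · subst hik; exact Or.inr h
      · exact Or.inl ⟨i, by omega, h⟩

theorem eval_prodT (k : ℕ) : ∃ m : Multiset ℕ, m.card = k + 1 ∧
    (prodT k).eval SetAlg (fun i => {({i} : Multiset ℕ)}) = {m} := by
  induction k with
  | zero => exact ⟨{0}, by simp, rfl⟩
  | succ k ih =>
    obtain ⟨m, hm, h⟩ := ih
    refine ⟨m + {k + 1}, by simp [hm], ?_⟩
    show Set.image2 (· + ·) ((prodT k).eval SetAlg (fun i => {({i} : Multiset ℕ)}))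
      {({k + 1} : Multiset ℕ)} = _
    rw [h, Set.image2_singleton]

theorem not_derivable (D : Set (Tm × Tm)) (hfin : D.Finite) (hD : ∀ e ∈ D, Holds S70.alg e) :
    ∃ k : ℕ, ¬ Derivable D (edges (2 * k + 1) (2 * k + 1))
      (.add (edges (2 * k + 1) (2 * k + 1)) (prodT (2 * k))) := by
  obtain ⟨N, hN⟩ : ∃ N : ℕ, ∀ e ∈ D, e.1.bd e.2.size + e.1.bd e.1.size + e.2.bd e.1.size +
      e.2.bd e.2.size + 1 < N := by
    obtain ⟨N, hN⟩ := (hfin.image (fun e : Tm × Tm => e.1.bd e.2.size + e.1.bd e.1.size +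
      e.2.bd e.1.size + e.2.bd e.2.size + 1)).bddAbove
    refine ⟨N + 1, fun e he => ?_⟩
    have h : e.1.bd e.2.size + e.1.bd e.1.size + e.2.bd e.1.size + e.2.bd e.2.size + 1 ≤ N :=
      hN (Set.mem_image_of_mem _ he)
    omega
  refine ⟨N + 1, fun hder => ?_⟩
  have hinv := invariant D hD (2 * (N + 1) + 1) (fun e he => by
    have := hN e he
    refine ⟨?_, ?_, ?_, ?_⟩ <;> omega) _ _ hder (fun i => {({i} : Multiset ℕ)}) {0} ∅
  have hmul0 : ∀ S : Set (Multiset ℕ), Set.image2 (· + ·) S {0} ∪ ∅ = S := by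
    intro S
    rw [Set.union_empty, Set.image2_singleton_right]
    simp
  rw [hmul0, hmul0, eval_edges] at hinv
  have h1 := hinv.1 rfl
  obtain ⟨m, hm, hmeq⟩ := eval_prodT (2 * (N + 1))
  have h2 : m ∈ E (2 * (N + 1) + 1) := by
    rw [← h1]
    show m ∈ (edges _ _).eval SetAlg (fun i => {({i} : Multiset ℕ)}) ∪
      (prodT (2 * (N + 1))).eval SetAlg (fun i => {({i} : Multiset ℕ)})
    rw [hmeq]
    exact Or.inr rfl
  obtain ⟨i, _, rfl⟩ := h2
  simp [ed] at hm

end Pool.Agent.Results.MP_5fe13e_al.NonFinitelyBased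

open Pool.Agent.Results.MP_5fe13e_al.NonFinitelyBased in
/-- The semiring `S₇⁰` (signature `{+, ·, 0}`) is not finitely based. Moreover, for every finite
set `D` of identities of `S₇⁰` there is an algebra of the signature in which all identities of `D`
hold, but in which some identity of `S₇⁰` fails. -/
theorem Pool.Agent.Results.MP_5fe13e_al.NonFinitelyBased.result :
    ¬ FinitelyBased S70.alg ∧
    ∀ D : Set (Tm × Tm), D.Finite → (∀ e ∈ D, Holds S70.alg e) →
      ∃ (A : Type) (S : Alg A) (e : Tm × Tm), (∀ d ∈ D, Holds S d) ∧ Holds S70.alg e ∧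
        ¬ Holds S e := by
  have syn : ∀ D : Set (Tm × Tm), D.Finite → (∀ e ∈ D, Holds S70.alg e) →
      ∃ e : Tm × Tm, Holds S70.alg e ∧ ¬ Derivable D e.1 e.2 := by
    intro D hfin hD
    obtain ⟨k, hk⟩ := not_derivable D hfin hD
    exact ⟨_, identity_holds k, hk⟩
  constructor
  · rintro ⟨D, hfin, hD, hall⟩
    obtain ⟨e, he, hne⟩ := syn D hfin hD
    exact hne (hall e he)
  · intro D hfin hD
    obtain ⟨e, he, hne⟩ := syn D hfin hD
    let st : Setoid Tm := ⟨Derivable D, ⟨Derivable.refl, Derivable.symm _ _,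
      Derivable.trans _ _ _⟩⟩
    let S : Alg (Quotient st) :=
      { add := Quotient.map₂ Tm.add (fun _ _ h _ _ h' => Derivable.add _ _ _ _ h h')
        mul := Quotient.map₂ Tm.mul (fun _ _ h _ _ h' => Derivable.mul _ _ _ _ h h')
        zero := Quotient.mk st Tm.zero }
    have hev : ∀ (f : ℕ → Tm) (t : Tm), t.eval S (fun i => Quotient.mk st (f i)) =
        Quotient.mk st (t.subst f) := by
      intro f t
      induction t with
      | x i => rfl
      | zero => rfl
      | add s t hs ht =>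
        show S.add (s.eval S _) (t.eval S _) = _
        rw [hs, ht]; rfl
      | mul s t hs ht =>
        show S.mul (s.eval S _) (t.eval S _) = _
        rw [hs, ht]; rfl
    refine ⟨Quotient st, S, e, ?_, he, ?_⟩
    · rintro ⟨s, t⟩ hd v
      obtain ⟨f, hf⟩ : ∃ f : ℕ → Tm, v = fun i => Quotient.mk st (f i) :=
        ⟨fun i => (v i).out, by funext i; exact (Quotient.out_eq _).symm⟩
      subst hf
      rw [hev, hev]
      exact Quotient.sound (Derivable.ax s t f hd)
    · intro h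
      apply hne
      have h' := h (fun i => Quotient.mk st (Tm.x i))
      rw [hev, hev] at h'
      have hid : ∀ t : Tm, t.subst Tm.x = t := by
        intro t
        induction t with
        | x i => rfl
        | zero => rfl
        | add s t hs ht => simp only [Tm.subst, hs, ht]
        | mul s t hs ht => simp only [Tm.subst, hs, ht]
      rw [hid, hid] at h'
      exact Quotient.exact h'
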